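import Mathlib

/-!
# MP_87c242_co: the minimum percolating sets of the 3-neighbour process on the king's grid

The exact value of `m₃(2,n) = m₃(n,2)` for all `n ≥ 2`.
-/

namespace Pool.Agent.Results.MP_87c242_co.TwoRows

/-- The strong product of the paths with `m` and `n` vertices: two distinct cells are adjacent
when both their row numbers and their column numbers differ by at most one. -/
def kingGraph (m n : ℕ) : SimpleGraph (Fin m × Fin n) where
  Adj p q := p ≠ q ∧ (p.1 : ℕ) ≤ q.1 + 1 ∧ (q.1 : ℕ) ≤ p.1 + 1 ∧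
    (p.2 : ℕ) ≤ q.2 + 1 ∧ (q.2 : ℕ) ≤ p.2 + 1
  symm := ⟨fun _ _ h => ⟨h.1.symm, h.2.2.1, h.2.1, h.2.2.2.2, h.2.2.2.1⟩⟩
  loopless := ⟨fun _ h => h.1 rfl⟩

/-- One round of `r`-neighbour bootstrap percolation: all vertices with at least `r` infected
neighbours become infected. -/
def round {V : Type} (G : SimpleGraph V) (r : ℕ) (A : Set V) : Set V :=
  A ∪ {v | r ≤ {w | G.Adj v w ∧ w ∈ A}.ncard}

/-- `A` fully infects `G`: every vertex is infected after finitely many rounds. -/
def FullyInfects {V : Type} (G : SimpleGraph V) (r : ℕ) (A : Set V) : Prop :=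
  ∀ v : V, ∃ t : ℕ, v ∈ (round G r)^[t] A

/-- The minimum size of a set that fully infects the king's grid under the `3`-neighbour
process. -/
noncomputable def m3 (m n : ℕ) : ℕ :=
  sInf {k | ∃ A : Set (Fin m × Fin n), FullyInfects (kingGraph m n) 3 A ∧ A.ncard = k}

section general

variable {V : Type} [Finite V] (G : SimpleGraph V) (r : ℕ)

/-- Closed under the infection rule. -/
def Closed (S : Set V) : Prop :=
  ∀ v, r ≤ {w | G.Adj v w ∧ w ∈ S}.ncard → v ∈ S

lemma iter_subset_of_closed {A S : Set V} (hAS : A ⊆ S) (hS : Closed G r S) (t : ℕ) :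
    (round G r)^[t] A ⊆ S := by
  induction t with
  | zero => simpa using hAS
  | succ t ih =>
    rw [Function.iterate_succ_apply']
    intro v hv
    rcases hv with hv | hv
    · exact ih hv
    · apply hS
      refine le_trans hv (Set.ncard_le_ncard ?_ (Set.toFinite _))
      intro w hw
      exact ⟨hw.1, ih hw.2⟩

lemma iter_mono (A : Set V) {s t : ℕ} (h : s ≤ t) :
    (round G r)^[s] A ⊆ (round G r)^[t] A := by
  induction h with
  | refl => exact Set.Subset.refl _
  | step _ ih =>
    refine ih.trans ?_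
    rw [Function.iterate_succ_apply']
    exact Set.subset_union_left

lemma fullyInfects_iff (A : Set V) :
    FullyInfects G r A ↔ ∀ S : Set V, A ⊆ S → Closed G r S → ∀ v, v ∈ S := by
  constructor
  · intro h S hAS hS v
    obtain ⟨t, ht⟩ := h v
    exact iter_subset_of_closed G r hAS hS t ht
  · intro h
    refine h {v | ∃ t : ℕ, v ∈ (round G r)^[t] A} ?_ ?_
    · intro v hv
      exact ⟨0, by simpa using hv⟩
    · intro v hv
      have hex : ∀ w : V, ∃ t : ℕ, (∃ t : ℕ, w ∈ (round G r)^[t] A) →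
          w ∈ (round G r)^[t] A := by
        intro w
        by_cases hw : ∃ t : ℕ, w ∈ (round G r)^[t] A
        · obtain ⟨t, ht⟩ := hw
          exact ⟨t, fun _ => ht⟩
        · exact ⟨0, fun h => absurd h hw⟩
      choose f hf using hex
      haveI := Fintype.ofFinite V
      refine ⟨(Finset.univ.sup f) + 1, ?_⟩
      rw [Function.iterate_succ_apply']
      right
      refine le_trans hv (Set.ncard_le_ncard ?_ (Set.toFinite _))
      intro w hw
      exact ⟨hw.1, iter_mono G r A (Finset.le_sup (Finset.mem_univ w)) (hf w hw.2)⟩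

/-- A nonempty set all of whose vertices have fewer than `r` neighbours outside of it meets every
fully infecting set. -/
lemma meets {A : Set V} (h : FullyInfects G r A) (X : V → Prop) (x0 : V) (hx0 : X x0)
    (hX : ∀ v, X v → {w | G.Adj v w ∧ ¬ X w}.ncard < r) :
    ∃ v ∈ A, X v := by
  by_contra hcon
  push Not at hcon
  refine (fullyInfects_iff G r A).1 h {v | ¬ X v} hcon ?_ x0 hx0
  intro v hv hXv
  exact absurd (hX v hXv) (not_lt.2 hv)

end general

section king

variable {m n : ℕ}

/-- Membership in natural-number coordinates. -/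
def In (S : Set (Fin m × Fin n)) (i j : ℕ) : Prop :=
  ∃ (hi : i < m) (hj : j < n), ((⟨i, hi⟩, ⟨j, hj⟩) : Fin m × Fin n) ∈ S

lemma three {S : Set (Fin m × Fin n)} (hS : Closed (kingGraph m n) 3 S) (i j : ℕ)
    (hi : i < m) (hj : j < n) (i1 j1 i2 j2 i3 j3 : ℕ) (h1 : In S i1 j1) (h2 : In S i2 j2)
    (h3 : In S i3 j3)
    (a1 : i1 ≤ i + 1 ∧ i ≤ i1 + 1 ∧ j1 ≤ j + 1 ∧ j ≤ j1 + 1 ∧ (i1 ≠ i ∨ j1 ≠ j))
    (a2 : i2 ≤ i + 1 ∧ i ≤ i2 + 1 ∧ j2 ≤ j + 1 ∧ j ≤ j2 + 1 ∧ (i2 ≠ i ∨ j2 ≠ j))
    (a3 : i3 ≤ i + 1 ∧ i ≤ i3 + 1 ∧ j3 ≤ j + 1 ∧ j ≤ j3 + 1 ∧ (i3 ≠ i ∨ j3 ≠ j))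
    (d12 : i1 ≠ i2 ∨ j1 ≠ j2) (d13 : i1 ≠ i3 ∨ j1 ≠ j3) (d23 : i2 ≠ i3 ∨ j2 ≠ j3) :
    In S i j := by
  classical
  obtain ⟨hi1, hj1, m1⟩ := h1
  obtain ⟨hi2, hj2, m2⟩ := h2
  obtain ⟨hi3, hj3, m3⟩ := h3
  refine ⟨hi, hj, hS _ ?_⟩
  have hcard : ({(⟨i1, hi1⟩, ⟨j1, hj1⟩), (⟨i2, hi2⟩, ⟨j2, hj2⟩), (⟨i3, hi3⟩, ⟨j3, hj3⟩)} :
      Finset (Fin m × Fin n)).card = 3 := by
    rw [Finset.card_eq_three]
    refine ⟨_, _, _, ?_, ?_, ?_, rfl⟩
    · simp only [ne_eq, Prod.mk.injEq, Fin.mk.injEq, not_and_or]; exact d12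
    · simp only [ne_eq, Prod.mk.injEq, Fin.mk.injEq, not_and_or]; exact d13
    · simp only [ne_eq, Prod.mk.injEq, Fin.mk.injEq, not_and_or]; exact d23
  rw [← hcard, ← Set.ncard_coe_finset]
  refine Set.ncard_le_ncard ?_ (Set.toFinite _)
  intro w hw
  simp only [Finset.coe_insert, Finset.coe_singleton, Set.mem_insert_iff,
    Set.mem_singleton_iff] at hw
  rcases hw with rfl | rfl | rfl
  · refine ⟨⟨?_, ?_, ?_, ?_, ?_⟩, m1⟩
    · simp only [ne_eq, Prod.mk.injEq, Fin.mk.injEq, not_and_or]; omega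
    all_goals simp; omega
  · refine ⟨⟨?_, ?_, ?_, ?_, ?_⟩, m2⟩
    · simp only [ne_eq, Prod.mk.injEq, Fin.mk.injEq, not_and_or]; omega
    all_goals simp; omega
  · refine ⟨⟨?_, ?_, ?_, ?_, ?_⟩, m3⟩
    · simp only [ne_eq, Prod.mk.injEq, Fin.mk.injEq, not_and_or]; omega
    all_goals simp; omega

/-- Upper bound for two rows. -/
lemma two_upper (hn : 3 ≤ n) (S : Set (Fin 2 × Fin n))
    (hS : Closed (kingGraph 2 n) 3 S)
    (hA : ∀ j, j < n → (j = 1 ∨ j % 2 = 0 ∨ j = n - 1) → In S 0 j) :
    ∀ i j, i < 2 → j < n → In S i j := by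
  have h0 := hA 0 (by omega) (by omega)
  have h1 := hA 1 (by omega) (by omega)
  have h2 := hA 2 (by omega) (by omega)
  have k1 : In S 1 1 := three hS _ _ (by omega) (by omega) _ _ _ _ _ _ h0 h1 h2 (by omega)
        (by omega) (by omega) (by omega) (by omega) (by omega)
  have k0 : In S 1 0 := three hS _ _ (by omega) (by omega) _ _ _ _ _ _ h0 h1 k1 (by omega)
        (by omega) (by omega) (by omega) (by omega) (by omega)
  have key : ∀ j, j < n → In S 0 j ∧ In S 1 j := by
    intro j
    induction j with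
    | zero => intro _; exact ⟨h0, k0⟩
    | succ j ih =>
      intro hj
      obtain ⟨a, b⟩ := ih (by omega)
      by_cases hc : (j + 1 = 1 ∨ (j + 1) % 2 = 0 ∨ j + 1 = n - 1)
      · have c := hA (j + 1) hj hc
        exact ⟨c, three hS _ _ (by omega) hj _ _ _ _ _ _ a b c (by omega)
          (by omega) (by omega) (by omega) (by omega) (by omega)⟩
      · have c := hA (j + 2) (by omega) (by omega)
        exact ⟨three hS _ _ (by omega) hj _ _ _ _ _ _ a b c (by omega)
          (by omega) (by omega) (by omega) (by omega) (by omega),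
          three hS _ _ (by omega) hj _ _ _ _ _ _ a b c (by omega)
          (by omega) (by omega) (by omega) (by omega) (by omega)⟩
  intro i j hi hj
  rcases (by omega : i = 0 ∨ i = 1) with rfl | rfl
  · exact (key j hj).1
  · exact (key j hj).2

lemma in_iff (S : Set (Fin m × Fin n)) (v : Fin m × Fin n) : v ∈ S ↔ In S v.1 v.2 := by
  constructor
  · intro h; exact ⟨v.1.2, v.2.2, h⟩
  · rintro ⟨_, _, h⟩; exact h

end king

lemma m3_le {m n : ℕ} (A : Set (Fin m × Fin n)) (hA : FullyInfects (kingGraph m n) 3 A)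
    (k : ℕ) (hk : A.ncard ≤ k) : m3 m n ≤ k := by
  refine le_trans ?_ hk
  unfold m3
  exact Nat.sInf_le ⟨A, hA, rfl⟩

lemma univ_infects (m n : ℕ) : FullyInfects (kingGraph m n) 3 Set.univ := by
  intro v
  exact ⟨0, by simp⟩

lemma le_m3 {m n k : ℕ} (h : ∀ A : Set (Fin m × Fin n), FullyInfects (kingGraph m n) 3 A →
    k ≤ A.ncard) : k ≤ m3 m n := by
  unfold m3
  apply le_csInf
  · exact ⟨_, Set.univ, univ_infects m n, rfl⟩
  · rintro _ ⟨A, hA, rfl⟩
    exact h A hA

lemma ncard_univ' (m n : ℕ) : (Set.univ : Set (Fin m × Fin n)).ncard = m * n := by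
  rw [Set.ncard_univ]
  simp

section two

variable {n : ℕ}

/-- The number of cells of `A` in column `j`. -/
noncomputable def col (A : Set (Fin 2 × Fin n)) (j : ℕ) : ℕ :=
  {c | c ∈ A ∧ (c.2 : ℕ) = j}.ncard

lemma col_pos {A : Set (Fin 2 × Fin n)} {j : ℕ} (v : Fin 2 × Fin n) (hv : v ∈ A)
    (hj : (v.2 : ℕ) = j) : 1 ≤ col A j := by
  unfold col
  rw [Nat.succ_le_iff, Set.ncard_pos (Set.toFinite _)]
  exact ⟨v, hv, hj⟩

lemma card_eq (A : Set (Fin 2 × Fin n)) : A.ncard = ∑ j ∈ Finset.range n, col A j := by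
  classical
  have hA : ((A.toFinset : Finset (Fin 2 × Fin n)) : Set (Fin 2 × Fin n)) = A := by simp
  rw [← hA, Set.ncard_coe_finset,
    Finset.card_eq_sum_card_fiberwise (f := fun c => (c.2 : ℕ)) (t := Finset.range n)]
  · apply Finset.sum_congr rfl
    intro j _
    unfold col
    rw [← Set.ncard_coe_finset]
    congr 1
    ext c
    simp
  · intro c _
    simp

lemma card_two_aux (X : Fin 2 × Fin n → Prop) (v : Fin 2 × Fin n) (j : ℕ)
    (h : ∀ w, (kingGraph 2 n).Adj v w → ¬ X w → (w.2 : ℕ) = j) :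
    {w | (kingGraph 2 n).Adj v w ∧ ¬ X w}.ncard < 3 := by
  classical
  by_cases hj : j < n
  · refine lt_of_le_of_lt (b := 2) ?_ (by norm_num)
    refine le_trans (Set.ncard_le_ncard (t := (({((0, ⟨j, hj⟩) : Fin 2 × Fin n),
      (1, ⟨j, hj⟩)} : Finset (Fin 2 × Fin n)) : Set (Fin 2 × Fin n))) ?_
      (Set.toFinite _)) (by rw [Set.ncard_coe_finset]; exact Finset.card_le_two)
    intro w hw
    have hw2 := h w hw.1 hw.2
    simp only [Finset.coe_insert, Finset.coe_singleton, Set.mem_insert_iff,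
      Set.mem_singleton_iff]
    rcases (by omega : (w.1 : ℕ) = 0 ∨ (w.1 : ℕ) = 1) with h1 | h1
    · left; exact Prod.ext (Fin.ext h1) (Fin.ext hw2)
    · right; exact Prod.ext (Fin.ext h1) (Fin.ext hw2)
  · have : {w | (kingGraph 2 n).Adj v w ∧ ¬ X w} = ∅ := by
      rw [Set.eq_empty_iff_forall_notMem]
      intro w hw
      have := h w hw.1 hw.2
      have := w.2.2
      omega
    rw [this]
    simp

lemma two_lower (hn : 2 ≤ n) (A : Set (Fin 2 × Fin n))
    (hA : FullyInfects (kingGraph 2 n) 3 A) : n / 2 + 2 ≤ A.ncard := by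
  classical
  set a := col A with ha
  have hn1 : ∀ j, n ≤ j → a j = 0 := by
    intro j hj
    rw [ha]
    unfold col
    rw [Set.ncard_eq_zero (Set.toFinite _), Set.eq_empty_iff_forall_notMem]
    rintro c ⟨_, hc⟩
    have := c.2.2
    omega
  have hfirst : 1 ≤ a 0 := by
    obtain ⟨v, hv, hv2⟩ := meets (kingGraph 2 n) 3 hA (fun w => (w.2 : ℕ) = 0)
      (0, ⟨0, by omega⟩) rfl (by
        intro v hv
        refine card_two_aux _ v 1 ?_
        rintro w ⟨_, _, _, h1, h2⟩ hw
        omega)
    exact col_pos v hv hv2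
  have hlast : 1 ≤ a (n - 1) := by
    obtain ⟨v, hv, hv2⟩ := meets (kingGraph 2 n) 3 hA (fun w => (w.2 : ℕ) = n - 1)
      (0, ⟨n - 1, by omega⟩) rfl (by
        intro v hv
        refine card_two_aux _ v (n - 2) ?_
        rintro w ⟨_, _, _, h1, h2⟩ hw
        have := w.2.2
        omega)
    exact col_pos v hv hv2
  have hpair : ∀ j, j + 1 < n → 1 ≤ a j + a (j + 1) := by
    intro j hj
    obtain ⟨v, hv, hv2⟩ := meets (kingGraph 2 n) 3 hA
      (fun w => (w.2 : ℕ) = j ∨ (w.2 : ℕ) = j + 1)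
      (0, ⟨j, by omega⟩) (Or.inl rfl) (by
        intro v hv
        rcases hv with hv | hv
        · by_cases hj0 : j = 0
          · refine card_two_aux _ v n ?_
            rintro w ⟨_, _, _, h1, h2⟩ hw
            omega
          · refine card_two_aux _ v (j - 1) ?_
            rintro w ⟨_, _, _, h1, h2⟩ hw
            omega
        · refine card_two_aux _ v (j + 2) ?_
          rintro w ⟨_, _, _, h1, h2⟩ hw
          omega)
    rcases hv2 with hv2 | hv2
    · have : 1 ≤ a j := col_pos v hv hv2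
      omega
    · have : 1 ≤ a (j + 1) := col_pos v hv hv2
      omega
  -- left sums
  have hleft : ∀ L, (L ≤ n → (L + 1) / 2 ≤ ∑ j ∈ Finset.range L, a j) ∧
      (L + 1 ≤ n → (L + 2) / 2 ≤ ∑ j ∈ Finset.range (L + 1), a j) := by
    intro L
    induction L with
    | zero =>
      refine ⟨fun _ => by simp, fun _ => ?_⟩
      simp only [zero_add, Finset.sum_range_one]
      omega
    | succ L ih =>
      refine ⟨fun h => ?_, fun h => ?_⟩
      · have := ih.2 h
        omega
      · rw [Finset.sum_range_succ, Finset.sum_range_succ]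
        have h1 := ih.1 (by omega)
        have h2 := hpair L (by omega)
        omega
  -- right sums
  have hT : ∀ k, k < n → ∑ j ∈ Finset.Ico k n, a j = a k + ∑ j ∈ Finset.Ico (k + 1) n, a j := by
    intro k hk
    rw [Finset.sum_eq_sum_Ico_succ_bot hk]
  have hright : ∀ R, (R ≤ n → (R + 1) / 2 ≤ ∑ j ∈ Finset.Ico (n - R) n, a j) ∧
      (R + 1 ≤ n → (R + 2) / 2 ≤ ∑ j ∈ Finset.Ico (n - (R + 1)) n, a j) := by
    intro R
    induction R with
    | zero =>
      refine ⟨fun _ => by simp, fun _ => ?_⟩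
      simp only [zero_add]
      rw [hT (n - 1) (by omega)]
      omega
    | succ R ih =>
      refine ⟨fun h => ?_, fun h => ?_⟩
      · have := ih.2 h
        omega
      · have e1 : n - (R + 1 + 1) + 1 = n - (R + 1) := by omega
        have e2 : n - (R + 1) + 1 = n - R := by omega
        rw [hT (n - (R + 1 + 1)) (by omega), e1, hT (n - (R + 1)) (by omega), e2]
        have h1 := ih.1 (by omega)
        have h2 := hpair (n - (R + 1 + 1)) (by omega)
        rw [e1] at h2
        omega
  have hcard : A.ncard = ∑ j ∈ Finset.range n, a j := card_eq A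
  by_cases hclosed : Closed (kingGraph 2 n) 3 A
  · have hall := (fullyInfects_iff _ _ _).1 hA A (Set.Subset.refl _) hclosed
    have huniv : A = Set.univ := Set.eq_univ_iff_forall.2 hall
    rw [huniv, ncard_univ']
    omega
  · unfold Closed at hclosed
    push Not at hclosed
    obtain ⟨v, hv, hvA⟩ := hclosed
    set j := (v.2 : ℕ) with hj
    have hjn : j < n := v.2.2
    by_cases hj0 : j = 0
    · have h3 : 3 ≤ a 0 + a 1 := by
        refine hv.trans ?_
        refine le_trans (Set.ncard_le_ncard (t := {c | c ∈ A ∧ (c.2 : ℕ) = 0} ∪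
          {c | c ∈ A ∧ (c.2 : ℕ) = 1}) ?_ (Set.toFinite _)) (Set.ncard_union_le _ _)
        intro w hw
        obtain ⟨⟨_, _, _, h1, h2⟩, h3⟩ := hw
        rcases (by omega : (w.2 : ℕ) = 0 ∨ (w.2 : ℕ) = 1) with h | h
        · left; exact ⟨h3, h⟩
        · right; exact ⟨h3, h⟩
      have hr := (hright (n - 2)).1 (by omega)
      have e1 : n - (n - 2) = 2 := by omega
      rw [e1] at hr
      rw [hcard, Finset.range_eq_Ico, hT 0 (by omega), zero_add, hT 1 (by omega)]
      norm_num
      omega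
    · have h3 : 3 ≤ a (j - 1) + a j + a (j + 1) := by
        refine hv.trans ?_
        refine le_trans (Set.ncard_le_ncard (t := ({c | c ∈ A ∧ (c.2 : ℕ) = j - 1} ∪
          {c | c ∈ A ∧ (c.2 : ℕ) = j}) ∪ {c | c ∈ A ∧ (c.2 : ℕ) = j + 1}) ?_ (Set.toFinite _))
          ((Set.ncard_union_le _ _).trans (Nat.add_le_add_right (Set.ncard_union_le _ _) _))
        intro w hw
        obtain ⟨⟨_, _, _, h1, h2⟩, h3⟩ := hw
        rcases (by omega : (w.2 : ℕ) = j - 1 ∨ (w.2 : ℕ) = j ∨ (w.2 : ℕ) = j + 1) with h | h | h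
        · left; left; exact ⟨h3, h⟩
        · left; right; exact ⟨h3, h⟩
        · right; exact ⟨h3, h⟩
      have hl := (hleft (j - 1)).1 (by omega)
      have hsum : ∑ i ∈ Finset.range (j + 2), a i =
          ∑ i ∈ Finset.range (j - 1), a i + a (j - 1) + a j + a (j + 1) := by
        rw [Finset.sum_range_succ, Finset.sum_range_succ]
        have e := Finset.sum_range_succ a (j - 1)
        rw [show j - 1 + 1 = j by omega] at e
        rw [e]
      by_cases hjl : j + 1 < n
      · have hr := (hright (n - (j + 2))).1 (by omega)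
        have e1 : n - (n - (j + 2)) = j + 2 := by omega
        rw [e1] at hr
        have htot : ∑ i ∈ Finset.range n, a i = ∑ i ∈ Finset.range (j + 2), a i +
            ∑ i ∈ Finset.Ico (j + 2) n, a i := by
          rw [Finset.sum_range_add_sum_Ico _ (by omega : j + 2 ≤ n)]
        rw [hcard, htot, hsum]
        omega
      · have hjn' : j + 1 = n := by omega
        have htot : ∑ i ∈ Finset.range (j + 2), a i = ∑ i ∈ Finset.range n, a i := by
          rw [Finset.sum_range_succ, hjn', hn1 n (le_refl _), add_zero]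
        rw [hcard, ← htot, hsum]
        omega

end two

lemma two (n : ℕ) (hn : 2 ≤ n) : m3 2 n = n / 2 + 2 := by
  classical
  apply le_antisymm
  · by_cases hn3 : 3 ≤ n
    · let A : Finset (Fin 2 × Fin n) := insert (0, ⟨1, by omega⟩)
        ((Finset.range (n / 2 + 1)).image
          fun k => ((0 : Fin 2), (⟨min (2 * k) (n - 1), by omega⟩ : Fin n)))
      refine m3_le (A : Set (Fin 2 × Fin n)) ?_ _ ?_
      · rw [fullyInfects_iff]
        intro S hAS hS v
        rw [in_iff]
        refine two_upper hn3 S hS ?_ _ _ v.1.2 v.2.2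
        intro j hj hcase
        refine ⟨by omega, hj, hAS ?_⟩
        rw [Finset.mem_coe]
        simp only [A, Finset.mem_insert, Finset.mem_image, Finset.mem_range]
        by_cases h1 : j = 1
        · left
          subst h1
          rfl
        · right
          by_cases h2 : j % 2 = 0
          · refine ⟨j / 2, by omega, ?_⟩
            refine Prod.ext rfl (Fin.ext ?_)
            simp only
            omega
          · refine ⟨n / 2, by omega, ?_⟩
            refine Prod.ext rfl (Fin.ext ?_)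
            simp only
            omega
      · rw [Set.ncard_coe_finset]
        refine (Finset.card_insert_le _ _).trans ?_
        have := Finset.card_image_le (s := Finset.range (n / 2 + 1))
          (f := fun k => ((0 : Fin 2), (⟨min (2 * k) (n - 1), by omega⟩ : Fin n)))
        rw [Finset.card_range] at this
        omega
    · have hn2 : n = 2 := by omega
      subst hn2
      refine m3_le (({(0, 0), (0, 1), (1, 0)} : Finset (Fin 2 × Fin 2)) : Set (Fin 2 × Fin 2))
        ?_ _ ?_
      · rw [fullyInfects_iff]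
        intro S hAS hS v
        rw [in_iff]
        have h0 : In S 0 0 := ⟨by omega, by omega, hAS (by simp)⟩
        have h1 : In S 0 1 := ⟨by omega, by omega, hAS (by simp)⟩
        have h2 : In S 1 0 := ⟨by omega, by omega, hAS (by simp)⟩
        have h3 : In S 1 1 := three hS _ _ (by omega) (by omega) _ _ _ _ _ _ h0 h1 h2 (by omega)
          (by omega) (by omega) (by omega) (by omega) (by omega)
        have e1 := v.1.2
        have e2 := v.2.2
        rcases (by omega : (v.1 : ℕ) = 0 ∨ (v.1 : ℕ) = 1) with e | e <;>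
        rcases (by omega : (v.2 : ℕ) = 0 ∨ (v.2 : ℕ) = 1) with e' | e' <;>
        rw [e, e'] <;> assumption
      · rw [Set.ncard_coe_finset]
        exact Finset.card_le_three
  · exact le_m3 (two_lower hn)

lemma swap_infects {m n : ℕ} (A : Set (Fin m × Fin n))
    (hA : FullyInfects (kingGraph m n) 3 A) :
    FullyInfects (kingGraph n m) 3 (Prod.swap '' A) := by
  rw [fullyInfects_iff] at hA ⊢
  intro S hAS hS v
  have hmem : v.swap ∈ Prod.swap '' S := hA (Prod.swap '' S) ?_ ?_ v.swap
  · obtain ⟨w, hw, hwe⟩ := hmem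
    rwa [← Prod.swap_injective hwe]
  · intro a ha
    exact ⟨a.swap, hAS ⟨a, ha, rfl⟩, by simp⟩
  · intro a ha
    refine ⟨a.swap, hS _ ?_, by simp⟩
    refine le_trans ha ?_
    refine Set.ncard_le_ncard_of_injOn Prod.swap ?_ (Prod.swap_injective.injOn) (Set.toFinite _)
    rintro w ⟨⟨h0, h1, h2, h3, h4⟩, x, hx, hxw⟩
    refine ⟨⟨?_, h3, h4, h1, h2⟩, ?_⟩
    · intro h
      exact h0 (Prod.swap_injective h)
    · rw [← hxw]
      simpa using hx

lemma m3_comm (m n : ℕ) : m3 m n = m3 n m := by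
  apply le_antisymm
  · apply le_m3
    intro A hA
    exact m3_le _ (swap_infects A hA) _ (Set.ncard_image_le (Set.toFinite _))
  · apply le_m3
    intro A hA
    exact m3_le _ (swap_infects A hA) _ (Set.ncard_image_le (Set.toFinite _))

/-- The exact value for two rows or two columns: `m₃(2,n) = m₃(n,2) = ⌊n/2⌋ + 2` for `n ≥ 2`. -/
theorem result : ∀ n : ℕ, 2 ≤ n → m3 2 n = n / 2 + 2 ∧ m3 n 2 = n / 2 + 2 := by
  intro n hn
  exact ⟨two n hn, by rw [m3_comm]; exact two n hn⟩

end Pool.Agent.Results.MP_87c242_co.TwoRows
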